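import Pool.Agent.H173.TSMain

/-!
# A subquadratic bound for automata whose permutation letters have few orbits

Let `Ω` be a synchronizing automaton on `n ≥ 3` states whose bijective letters have at most `r`
orbits on the states. We prove that some three states are mapped to one state by a word of length at
most `n (38 ⌊√n⌋ + (r (r + 1) / 2 + 1) (48 ⌊log₂ n⌋ + 50) + 88) = O(n^{3/2} + r² n log n)`.

Idea of the proof. Let `R_t` be the graph of the pairs merged by words of length at most `t`, and
for a set `I` of states let `def_t(I) = |I| - |N_{R_t}(I)|`. This function is supermodular,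
decreases with `t`, and `def_{t+1}(I) ≤ def_t(c(I))` for each bijective letter `c`. For a natural
number `b` let `w_b(t)` be the maximum over `I` of `b def_t(I) - (n - |I|)`, let `I_b(t)` be the
largest maximizer, and let `f_b(t)` be the maximum over the sets `I` invariant under the bijective
letters. If `w_b(t+1) = w_b(t) > f_b(t)`, then `I_b(t)` contains `I_b(t+1)` and its images under
bijective letters and is strictly larger than `I_b(t+1)`. So all vertices of a lattice polygon
move at each step, except those coming from invariant sets. The neighbourhoods of invariant sets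
change at most `r (r + 1) / 2` times (up to delays of `n` steps). A potential argument with the
slopes `b ∈ (√n, 2√n]` shows that `w_b(t) = f_b(t)` for some such `b` except for `O(n^{3/2})` steps.
As long as the invariant part does not change, `w_b = f_b` for some `b ≥ 2 b₀` at most `24 n` steps
after `w_{b₀} = f_{b₀}`; so after `O(n log n)` steps the maximal deficiency is attained by an
invariant set, which is impossible for more than `n` steps: the dimension of the optimal face of the
fractional stable set polytope of `R_t` drops at each step.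
-/

set_option autoImplicit false

namespace Pool.Agent.Results.MP_735804_co.FewPermutationOrbits

/-- The map of a word; a word is a list of maps, and the last map of the list acts first. -/
def act {n : ℕ} (w : List (Fin n → Fin n)) : Fin n → Fin n := w.foldr (· ∘ ·) id

/-- `w` is a word over the automaton `Ω` (a finite set of maps). -/
def IsWord {n : ℕ} (Ω : Finset (Fin n → Fin n)) (w : List (Fin n → Fin n)) : Prop :=
  ∀ f ∈ w, f ∈ Ω

/-- `Ω` has a reset word. -/
def Synchronizing {n : ℕ} (Ω : Finset (Fin n → Fin n)) : Prop :=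
  ∃ w, IsWord Ω w ∧ ∀ i j : Fin n, act w i = act w j

/-- The words over the bijective letters of `Ω` have at most `r` orbits on the states: the orbits
are the classes of a colouring `κ` of the states with `r` colours. -/
def PermOrbitsLe (r : ℕ) {n : ℕ} (Ω : Finset (Fin n → Fin n)) : Prop :=
  ∃ κ : Fin n → Fin r, ∀ p q : Fin n,
    κ p = κ q ↔ ∃ w, IsWord Ω w ∧ (∀ f ∈ w, Function.Bijective f) ∧ act w p = q

/-- The weight of `S`: the least length of a word with `|w(S)| = 1`, and `∞` if there is none. -/
noncomputable def weight {n : ℕ} (Ω : Finset (Fin n → Fin n)) (S : Finset (Fin n)) : ℕ∞ :=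
  ⨅ (w : List (Fin n → Fin n)) (_ : IsWord Ω w ∧ (S.image (act w)).card = 1), (w.length : ℕ∞)

/-- The least weight of a set of `k` states. -/
noncomputable def minWeight (k : ℕ) {n : ℕ} (Ω : Finset (Fin n → Fin n)) : ℕ∞ :=
  ⨅ (S : Finset (Fin n)) (_ : S.card = k), weight Ω S

open Pool.Agent.H173.TR Pool.Agent.H173.TP Pool.Agent.H173.TQ

lemma act_append {n : ℕ} (w : List (Fin n → Fin n)) (c : Fin n → Fin n) :
    act (w ++ [c]) = act w ∘ c := by
  induction w with
  | nil => rfl
  | cons d w ih =>
    change d ∘ act (w ++ [c]) = (d ∘ act w) ∘ c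
    rw [ih]; rfl

lemma act_mem {n : ℕ} {Ω : Set (Fin n → Fin n)} {w : List (Fin n → Fin n)}
    (hw : ∀ f ∈ w, f ∈ Ω) : act w ∈ W Ω w.length := by
  induction w with
  | nil => exact rfl
  | cons c w ih =>
    have h1 : c ∈ Ω := hw c List.mem_cons_self
    have h2 := letter_comp h1 (ih fun f hf => hw f (List.mem_cons_of_mem _ hf))
    exact h2

lemma exists_word {n : ℕ} {Ω : Set (Fin n → Fin n)} : ∀ t, ∀ f ∈ W Ω t,
    ∃ w : List (Fin n → Fin n), (∀ f ∈ w, f ∈ Ω) ∧ w.length ≤ t ∧ act w = f := by
  intro t
  induction t with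
  | zero => intro f hf; exact ⟨[], by simp, by simp, (show f = id from hf).symm⟩
  | succ t ih =>
    intro f hf
    rcases hf with hf | ⟨g, hg, c, hc, rfl⟩
    · obtain ⟨w, h1, h2, h3⟩ := ih f hf
      exact ⟨w, h1, by omega, h3⟩
    · obtain ⟨w, h1, h2, h3⟩ := ih g hg
      refine ⟨w ++ [c], ?_, by simp [h2], by rw [act_append, h3]⟩
      intro f hf
      rw [List.mem_append, List.mem_singleton] at hf
      rcases hf with hf | rfl
      · exact h1 f hf
      · exact hc

/-- If the bijective letters of a synchronizing automaton with `n ≥ 3` states have at most `r`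
orbits, some three states are merged by a word of length at most
`n (38 ⌊√n⌋ + (r (r + 1) / 2 + 1) (48 ⌊log₂ n⌋ + 50) + 88)`. -/
theorem result (n r : ℕ) (hn : 3 ≤ n) (Ω : Finset (Fin n → Fin n)) (hsync : Synchronizing Ω)
    (hr : PermOrbitsLe r Ω) :
    minWeight 3 Ω ≤ ((n * (38 * Nat.sqrt n + (r * (r + 1) / 2 + 1) * (48 * Nat.log 2 n + 50) + 88) :
      ℕ) : ℕ∞) := by
  obtain ⟨w0, hw0, hconst⟩ := hsync
  obtain ⟨κ, hκ⟩ := hr
  set M := n * (38 * Nat.sqrt n + (r * (r + 1) / 2 + 1) * (48 * Nat.log 2 n + 50) + 88) with hM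
  have hsync' : Sync (Ω : Set (Fin n → Fin n)) := ⟨w0.length, act w0, act_mem hw0, hconst⟩
  have hκ' : Orb (Ω : Set (Fin n → Fin n)) κ := by
    intro p q
    rw [hκ]
    constructor
    · rintro ⟨w, hw1, hw2, hw3⟩
      exact ⟨w.length, act w, act_mem fun f hf => ⟨hw1 f hf, hw2 f hf⟩, hw3⟩
    · rintro ⟨t, f, hf, hfq⟩
      obtain ⟨w, hw1, _, hw3⟩ := exists_word t f hf
      exact ⟨w, fun g hg => (hw1 g hg).1, fun g hg => (hw1 g hg).2, by rw [hw3]; exact hfq⟩
  have hnot : ¬ TF (Ω : Set (Fin n → Fin n)) M := by
    have h1 := Pool.Agent.H173.TS.orbit_bound (by rw [Fintype.card_fin]; exact hn) hsync' hκ'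
    have h2 : (r + 1).choose 2 = r * (r + 1) / 2 := by
      rw [Nat.choose_two_right, Nat.add_sub_cancel, mul_comm]
    rw [Fintype.card_fin, h2] at h1
    have h3 : n * ((r * (r + 1) / 2 + 1) * (48 * (Nat.log 2 n + 1) + 2) + 38 * Nat.sqrt n + 88)
        = M := by
      rw [hM]
      have : 48 * (Nat.log 2 n + 1) + 2 = 48 * Nat.log 2 n + 50 := by ring
      rw [this]
      ring
    rw [h3] at h1
    exact h1
  unfold TF at hnot
  push Not at hnot
  obtain ⟨f, hf, q, hq⟩ := hnot
  obtain ⟨w, hw1, hw2, hw3⟩ := exists_word M f hf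
  obtain ⟨S, hS1, hS2⟩ := Finset.exists_subset_card_eq (by omega : 3 ≤ (fib f q).card)
  unfold minWeight weight
  refine (iInf₂_le S hS2).trans ((iInf₂_le w ⟨hw1, ?_⟩).trans (by exact_mod_cast hw2))
  rw [Finset.card_eq_one]
  refine ⟨q, ?_⟩
  ext p
  rw [Finset.mem_image, Finset.mem_singleton]
  constructor
  · rintro ⟨v, hv, rfl⟩
    rw [hw3]; exact mem_fib.1 (hS1 hv)
  · rintro rfl
    obtain ⟨v, hv⟩ := Finset.card_pos.1 (by omega : 0 < S.card)
    exact ⟨v, hv, by rw [hw3]; exact mem_fib.1 (hS1 hv)⟩

end Pool.Agent.Results.MP_735804_co.FewPermutationOrbits
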