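import Pool.Agent.H173.TLMain

/-!
# Linear bounds for the triple rendezvous time when states are doubled by words of small defect

The defect of a map `f` of the `n` states is `n - |f([n])|`. Let `Ω` be a synchronizing automaton
with `n ≥ 3` states.

* Suppose that each state which can be reached from all states is the common image of two distinct
  states under some word whose letters have total defect at most `D`. Then some three states are
  merged by a word of length at most `n + D n / 2 + 1`.
* In particular, if the bijective letters have at most `r` orbits on the states and all letters have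
  defect at most `δ`, then some three states are merged by a word of length at most
  `n + r δ n / 2 + 1`. For fixed `r` and `δ` this is a linear bound.

Idea of the proof. In the sink component, a state `q` which is doubled by a word `w` of total defect
at most `D` is doubled by such a word of length at most `n` (cut out cycles). If no three states are
merged by a word of length at most `n + t`, then no state which forms with `q` a pair merged by a
word of length at most `t` has a preimage under `w`; so `q` is in at most `D` such pairs. But the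
number of pairs merged by words of length at most `t` is at least `t`. For the second part, the
set of sink states doubled by words of total defect at most `j δ` is a union of orbits, and it
grows with `j` until it is the whole sink component.
-/

set_option autoImplicit false

namespace Pool.Agent.Results.MP_735804_co.LinearBoundedDefect

/-- The map of a word; a word is a list of maps, and the last map of the list acts first. -/
def act {n : ℕ} (w : List (Fin n → Fin n)) : Fin n → Fin n := w.foldr (· ∘ ·) id

/-- `w` is a word over the automaton `Ω` (a finite set of maps). -/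
def IsWord {n : ℕ} (Ω : Finset (Fin n → Fin n)) (w : List (Fin n → Fin n)) : Prop :=
  ∀ f ∈ w, f ∈ Ω

/-- `Ω` has a reset word. -/
def Synchronizing {n : ℕ} (Ω : Finset (Fin n → Fin n)) : Prop :=
  ∃ w, IsWord Ω w ∧ ∀ i j : Fin n, act w i = act w j

/-- The words over the bijective letters of `Ω` have at most `r` orbits on the states: the orbits
are the classes of a colouring `κ` of the states with `r` colours. -/
def PermOrbitsLe (r : ℕ) {n : ℕ} (Ω : Finset (Fin n → Fin n)) : Prop :=
  ∃ κ : Fin n → Fin r, ∀ p q : Fin n,
    κ p = κ q ↔ ∃ w, IsWord Ω w ∧ (∀ f ∈ w, Function.Bijective f) ∧ act w p = q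

/-- The defect of a map: the number of states outside its image. -/
def defect {n : ℕ} (f : Fin n → Fin n) : ℕ := n - (Finset.univ.image f).card

/-- `q` can be reached from every state. -/
def InSink {n : ℕ} (Ω : Finset (Fin n → Fin n)) (q : Fin n) : Prop :=
  ∀ p, ∃ w, IsWord Ω w ∧ act w p = q

/-- `q` is the common image of two distinct states under a word whose letters have total defect at
most `D`. -/
def DoubledWithin (D : ℕ) {n : ℕ} (Ω : Finset (Fin n → Fin n)) (q : Fin n) : Prop :=
  ∃ w, IsWord Ω w ∧ (w.map defect).sum ≤ D ∧ ∃ x y : Fin n, x ≠ y ∧ act w x = q ∧ act w y = q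

/-- The weight of `S`: the least length of a word with `|w(S)| = 1`, and `∞` if there is none. -/
noncomputable def weight {n : ℕ} (Ω : Finset (Fin n → Fin n)) (S : Finset (Fin n)) : ℕ∞ :=
  ⨅ (w : List (Fin n → Fin n)) (_ : IsWord Ω w ∧ (S.image (act w)).card = 1), (w.length : ℕ∞)

/-- The least weight of a set of `k` states. -/
noncomputable def minWeight (k : ℕ) {n : ℕ} (Ω : Finset (Fin n → Fin n)) : ℕ∞ :=
  ⨅ (S : Finset (Fin n)) (_ : S.card = k), weight Ω S

open Pool.Agent.H173.TR

lemma act_append {n : ℕ} (w : List (Fin n → Fin n)) (c : Fin n → Fin n) :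
    act (w ++ [c]) = act w ∘ c := by
  induction w with
  | nil => rfl
  | cons d w ih =>
    change d ∘ act (w ++ [c]) = (d ∘ act w) ∘ c
    rw [ih]; rfl

lemma act_mem {n : ℕ} {Ω : Set (Fin n → Fin n)} {w : List (Fin n → Fin n)}
    (hw : ∀ f ∈ w, f ∈ Ω) : act w ∈ W Ω w.length := by
  induction w with
  | nil => exact rfl
  | cons c w ih =>
    have h1 : c ∈ Ω := hw c List.mem_cons_self
    have h2 := letter_comp h1 (ih fun f hf => hw f (List.mem_cons_of_mem _ hf))
    exact h2

lemma exists_word {n : ℕ} {Ω : Set (Fin n → Fin n)} : ∀ t, ∀ f ∈ W Ω t,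
    ∃ w : List (Fin n → Fin n), (∀ f ∈ w, f ∈ Ω) ∧ w.length ≤ t ∧ act w = f := by
  intro t
  induction t with
  | zero => intro f hf; exact ⟨[], by simp, by simp, (show f = id from hf).symm⟩
  | succ t ih =>
    intro f hf
    rcases hf with hf | ⟨g, hg, c, hc, rfl⟩
    · obtain ⟨w, h1, h2, h3⟩ := ih f hf
      exact ⟨w, h1, by omega, h3⟩
    · obtain ⟨w, h1, h2, h3⟩ := ih g hg
      refine ⟨w ++ [c], ?_, by simp [h2], by rw [act_append, h3]⟩
      intro f hf
      rw [List.mem_append, List.mem_singleton] at hf
      rcases hf with hf | rfl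
      · exact h1 f hf
      · exact hc

lemma defect_eq {n : ℕ} (f : Fin n → Fin n) : defect f = (E f).card := by
  have h := E_card f
  rw [Fintype.card_fin] at h
  unfold defect
  omega

lemma cost_eq {n : ℕ} (w : List (Fin n → Fin n)) :
    (w.map defect).sum = Pool.Agent.H173.TL.cost w := by
  have h : (defect : (Fin n → Fin n) → ℕ) = fun c => (E c).card := funext defect_eq
  rw [h]
  rfl

/-- from merging times to weights -/
lemma weight_le {n M : ℕ} {Ω : Finset (Fin n → Fin n)}
    (hnot : ¬ TF (Ω : Set (Fin n → Fin n)) M) : minWeight 3 Ω ≤ (M : ℕ∞) := by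
  unfold TF at hnot
  push Not at hnot
  obtain ⟨f, hf, q, hq⟩ := hnot
  obtain ⟨w, hw1, hw2, hw3⟩ := exists_word M f hf
  obtain ⟨S, hS1, hS2⟩ := Finset.exists_subset_card_eq (by omega : 3 ≤ (fib f q).card)
  unfold minWeight weight
  refine (iInf₂_le S hS2).trans ((iInf₂_le w ⟨hw1, ?_⟩).trans (by exact_mod_cast hw2))
  rw [Finset.card_eq_one]
  refine ⟨q, ?_⟩
  ext p
  rw [Finset.mem_image, Finset.mem_singleton]
  constructor
  · rintro ⟨v, hv, rfl⟩
    rw [hw3]; exact mem_fib.1 (hS1 hv)
  · rintro rfl
    obtain ⟨v, hv⟩ := Finset.card_pos.1 (by omega : 0 < S.card)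
    exact ⟨v, hv, by rw [hw3]; exact mem_fib.1 (hS1 hv)⟩

/-- Let `Ω` be a synchronizing automaton with `n ≥ 3` states. If each state that can be reached from
all states is doubled by a word whose letters have total defect at most `D`, some three states are
merged by a word of length at most `n + D n / 2 + 1`. In particular, if the bijective letters have
at most `r` orbits and all letters have defect at most `δ`, some three states are merged by a word
of length at most `n + r δ n / 2 + 1`. -/
theorem result (n : ℕ) (hn : 3 ≤ n) (Ω : Finset (Fin n → Fin n)) (hsync : Synchronizing Ω) :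
    (∀ D : ℕ, (∀ q, InSink Ω q → DoubledWithin D Ω q) →
      minWeight 3 Ω ≤ ((n + D * n / 2 + 1 : ℕ) : ℕ∞)) ∧
    (∀ r δ : ℕ, PermOrbitsLe r Ω → (∀ c ∈ Ω, defect c ≤ δ) →
      minWeight 3 Ω ≤ ((n + r * δ * n / 2 + 1 : ℕ) : ℕ∞)) := by
  obtain ⟨w0, hw0, hconst⟩ := hsync
  have hsync' : Sync (Ω : Set (Fin n → Fin n)) := ⟨w0.length, act w0, act_mem hw0, hconst⟩
  have hn' : 3 ≤ Fintype.card (Fin n) := by rw [Fintype.card_fin]; exact hn
  have main : ∀ D : ℕ, (∀ q, InSink Ω q → DoubledWithin D Ω q) →
      minWeight 3 Ω ≤ ((n + D * n / 2 + 1 : ℕ) : ℕ∞) := by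
    intro D hD
    apply weight_le
    intro hT
    have h1 := Pool.Agent.H173.TL.dbl_bound hn' hsync' (D := D) (fun q hq => by
      obtain ⟨w, h1, h2, h3⟩ := hD q hq
      exact ⟨w, h1, by rw [← cost_eq]; exact h2, h3⟩) hT
    rw [Fintype.card_fin, Nat.mul_comm n D] at h1
    omega
  refine ⟨main, fun r δ hr hδ => main (r * δ) fun q hq => ?_⟩
  obtain ⟨κ, hκ⟩ := hr
  obtain ⟨w, h1, h2, h3⟩ := Pool.Agent.H173.TL.orbits_doubling
    (Ω := (Ω : Set (Fin n → Fin n))) (κ := κ) (δ := δ) (by omega)
    (fun p q hpq => by
      obtain ⟨w, hw1, hw2, hw3⟩ := (hκ p q).1 hpq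
      exact ⟨w, fun c hc => ⟨hw1 c hc, hw2 c hc⟩, hw3⟩)
    (fun c hc => by rw [← defect_eq]; exact hδ c hc) hw0 hconst (q := q) hq
  exact ⟨w, h1, by rw [cost_eq]; exact h2, h3⟩

end Pool.Agent.Results.MP_735804_co.LinearBoundedDefect
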