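import Pool.Agent.H173.RdvSync

/-!
# A lower bound for the triple rendezvous time

We prove `rdv(3, n) ≥ 4 * ⌊n / 3⌋ + min (n % 3) 1` for all `n ≥ 6`, so `rdv(3, n) ≥ (4 n - 5) / 3`,
and `rdv(3, n) ≥ 4 n / 3` if `3 ∣ n`. The automaton has two letters: a permutation and a map with
`n - 1` values.

Idea of the proof. Write `n = 3 m + k`, with states `A_i` (`i < m`), `B_j` (`j < 2 m`), `Z_l`
(`l < k`). The first letter turns the `A` block and the `B` block round and fixes each `Z_l`. The
second letter is given by `fb`; it merges `A_(m-2)` and `B_(m-2)` and nothing else. An explicit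
function `g` on the pairs of states is at most `1` on the merged pair and drops by at most `1` when
a letter is applied, so no word of length less than `g` merges the pair; and `g` is large on the
pairs that contain the doubled state and have three preimages.
-/

set_option autoImplicit false

namespace Pool.Agent.Results.MP_735804_co.LowerBoundFourThirds

/-- The map of a word; a word is a list of maps, and the last map of the list acts first. -/
def act {n : ℕ} (w : List (Fin n → Fin n)) : Fin n → Fin n := w.foldr (· ∘ ·) id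

/-- `w` is a word over the automaton `Ω` (a finite set of maps). -/
def IsWord {n : ℕ} (Ω : Finset (Fin n → Fin n)) (w : List (Fin n → Fin n)) : Prop :=
  ∀ f ∈ w, f ∈ Ω

/-- `Ω` has a reset word. -/
def Synchronizing {n : ℕ} (Ω : Finset (Fin n → Fin n)) : Prop :=
  ∃ w, IsWord Ω w ∧ ∀ i j : Fin n, act w i = act w j

/-- The weight of `S`: the least length of a word with `|w(S)| = 1`, and `∞` if there is none. -/
noncomputable def weight {n : ℕ} (Ω : Finset (Fin n → Fin n)) (S : Finset (Fin n)) : ℕ∞ :=
  ⨅ (w : List (Fin n → Fin n)) (_ : IsWord Ω w ∧ (S.image (act w)).card = 1), (w.length : ℕ∞)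

/-- The least weight of a set of `k` states. -/
noncomputable def minWeight (k : ℕ) {n : ℕ} (Ω : Finset (Fin n → Fin n)) : ℕ∞ :=
  ⨅ (S : Finset (Fin n)) (_ : S.card = k), weight Ω S

/-- The `k`-set rendezvous time: the largest value of `minWeight k Ω` over all synchronizing
automata `Ω` with state set `Fin n`. -/
noncomputable def rdv (k n : ℕ) : ℕ∞ :=
  ⨆ (Ω : Finset (Fin n → Fin n)) (_ : Ω.Nonempty ∧ Synchronizing Ω), minWeight k Ω

open Pool.Agent.H173.Rdv

/-- the two letters -/
noncomputable def letter (m k : ℕ) (hm : 2 ≤ m) (c : Fin 2) : Fin (3 * m + k) → Fin (3 * m + k) :=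
  fun x => ⟨step m k c x.1, step_lt hm c x.2⟩

lemma act_map (m k : ℕ) (hm : 2 ≤ m) (u : List (Fin 2)) (x : Fin (3 * m + k)) :
    (act (u.map (letter m k hm)) x).1 = run m k u x.1 := by
  induction u with
  | nil => rfl
  | cons c u ih =>
    change step m k c (act (u.map (letter m k hm)) x).1 = _
    rw [ih]; rfl

lemma exists_code {m k : ℕ} (hm : 2 ≤ m) (w : List (Fin (3 * m + k) → Fin (3 * m + k)))
    (hw : IsWord {letter m k hm 0, letter m k hm 1} w) :
    ∃ u : List (Fin 2), u.length = w.length ∧ w = u.map (letter m k hm) := by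
  induction w with
  | nil => exact ⟨[], rfl, rfl⟩
  | cons f w ih =>
    obtain ⟨u, hu, hu'⟩ := ih (fun f hf => hw f (List.mem_cons_of_mem _ hf))
    have hf := hw f List.mem_cons_self
    simp only [Finset.mem_insert, Finset.mem_singleton] at hf
    rcases hf with rfl | rfl
    · exact ⟨0 :: u, by simp [hu], by simp [hu']⟩
    · exact ⟨1 :: u, by simp [hu], by simp [hu']⟩

lemma sync {m k : ℕ} (hm : 2 ≤ m) : Synchronizing {letter m k hm 0, letter m k hm 1} := by
  obtain ⟨u, q, hu⟩ := exists_reset (k := k) hm
  refine ⟨u.map (letter m k hm), ?_, ?_⟩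
  · intro f hf
    rw [List.mem_map] at hf
    obtain ⟨c, _, rfl⟩ := hf
    fin_cases c <;> simp
  · intro i j
    apply Fin.ext
    rw [act_map, act_map, hu _ i.2, hu _ j.2]

lemma lower {m k e : ℕ} (hm : 2 ≤ m) (he : e ≤ 1) (hk : k = 0 → e = 0) :
    ((4 * m + e : ℕ) : ℕ∞) ≤ minWeight 3 {letter m k hm 0, letter m k hm 1} := by
  unfold minWeight weight
  refine le_iInf fun S => le_iInf fun hS => le_iInf fun w => le_iInf fun hw => ?_
  obtain ⟨hw1, hw2⟩ := hw
  obtain ⟨u, hul, rfl⟩ := exists_code hm w hw1
  rw [← hul]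
  obtain ⟨x, y, z, hxy, hxz, hyz, rfl⟩ := Finset.card_eq_three.1 hS
  have hsame : ∀ p ∈ ({x, y, z} : Finset (Fin (3 * m + k))),
      ∀ q ∈ ({x, y, z} : Finset (Fin (3 * m + k))),
      act (u.map (letter m k hm)) p = act (u.map (letter m k hm)) q := by
    intro p hp q hq
    obtain ⟨r, hr⟩ := Finset.card_eq_one.1 hw2
    have h1 : act (u.map (letter m k hm)) p ∈ ({r} : Finset (Fin (3 * m + k))) := by
      rw [← hr]; exact Finset.mem_image_of_mem _ hp
    have h2 : act (u.map (letter m k hm)) q ∈ ({r} : Finset (Fin (3 * m + k))) := by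
      rw [← hr]; exact Finset.mem_image_of_mem _ hq
    rw [Finset.mem_singleton] at h1 h2
    rw [h1, h2]
  have h1 : run m k u x.1 = run m k u y.1 := by
    rw [← act_map m k hm, ← act_map m k hm, hsame x (by simp) y (by simp)]
  have h2 : run m k u x.1 = run m k u z.1 := by
    rw [← act_map m k hm, ← act_map m k hm, hsame x (by simp) z (by simp)]
  have := triple_bound hm he hk u x.1 y.1 z.1 x.2 y.2 z.2
    (fun h => hxy (Fin.ext h)) (fun h => hxz (Fin.ext h)) (fun h => hyz (Fin.ext h)) h1 h2
  exact_mod_cast this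

lemma letter_zero_bij {m k : ℕ} (hm : 2 ≤ m) : Function.Bijective (letter m k hm 0) := by
  refine Finite.injective_iff_bijective.1 ?_
  intro x y hxy
  apply Fin.ext
  have := congrArg Fin.val hxy
  exact fa_inj hm this

lemma letter_one_card {m k : ℕ} (hm : 2 ≤ m) :
    (Finset.univ.image (letter m k hm 1)).card + 1 = 3 * m + k := by
  have hpos : 0 < 3 * m + k := by omega
  have h1 : Finset.univ.image (letter m k hm 1)
      = Finset.univ.erase (⟨0, hpos⟩ : Fin (3 * m + k)) := by
    ext q
    simp only [Finset.mem_image, Finset.mem_univ, true_and, Finset.mem_erase, and_true, ne_eq]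
    constructor
    · rintro ⟨x, rfl⟩ h
      have := congrArg Fin.val h
      exact fb_ne_zero (k := k) (x := x.1) hm this
    · intro hq
      have hq0 : q.1 ≠ 0 := fun h => hq (Fin.ext h)
      have hq2 := q.2
      have key : ∃ x, x < 3 * m + k ∧ fb m k x = q.1 := by
        generalize q.1 = v at hq0 hq2
        by_cases c1 : v < m
        · by_cases c2 : v + 1 = m
          · exact ⟨3 * m - 1, by omega, by unfold fb; split_ifs <;> omega⟩
          · exact ⟨v - 1, by omega, by unfold fb; split_ifs <;> omega⟩
        · by_cases c2 : v = m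
          · exact ⟨m - 2, by omega, by unfold fb; split_ifs <;> omega⟩
          · by_cases c3 : v + 1 = 2 * m
            · rcases Nat.eq_zero_or_pos k with hk | hk
              · exact ⟨3 * m - 2, by omega, by unfold fb; split_ifs <;> omega⟩
              · exact ⟨3 * m + k - 1, by omega, by unfold fb; split_ifs <;> omega⟩
            · by_cases c4 : v + 1 = 3 * m
              · exact ⟨m - 1, by omega, by unfold fb; split_ifs <;> omega⟩
              · by_cases c5 : v = 3 * m
                · exact ⟨3 * m - 2, by omega, by unfold fb; split_ifs <;> omega⟩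
                · exact ⟨v - 1, by omega, by unfold fb; split_ifs <;> omega⟩
      obtain ⟨x, hx, hxv⟩ := key
      exact ⟨⟨x, hx⟩, Fin.ext hxv⟩
  rw [h1, Finset.card_erase_of_mem (Finset.mem_univ _), Finset.card_univ, Fintype.card_fin]
  omega

/-- For every `n ≥ 6` there is a synchronizing automaton with `n` states and two letters, one a
permutation and one with `n - 1` values, in which each word that sends three states to one state
has length at least `4 * ⌊n / 3⌋ + min (n % 3) 1`. Hence `rdv 3 n` is at least this number. -/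
theorem result (n : ℕ) (hn : 6 ≤ n) :
    (∃ a b : Fin n → Fin n, Function.Bijective a ∧
      (Finset.univ.image b).card + 1 = n ∧ Synchronizing {a, b} ∧
      ((4 * (n / 3) + min (n % 3) 1 : ℕ) : ℕ∞) ≤ minWeight 3 {a, b}) ∧
    ((4 * (n / 3) + min (n % 3) 1 : ℕ) : ℕ∞) ≤ rdv 3 n := by
  have main : ∃ a b : Fin n → Fin n, Function.Bijective a ∧
      (Finset.univ.image b).card + 1 = n ∧ Synchronizing {a, b} ∧
      ((4 * (n / 3) + min (n % 3) 1 : ℕ) : ℕ∞) ≤ minWeight 3 {a, b} := by
    obtain ⟨m, k, hk3, rfl⟩ : ∃ m k, k < 3 ∧ n = 3 * m + k :=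
      ⟨n / 3, n % 3, Nat.mod_lt _ (by norm_num), (Nat.div_add_mod n 3).symm⟩
    have hm : 2 ≤ m := by omega
    have e1 : (3 * m + k) / 3 = m := by omega
    have e2 : (3 * m + k) % 3 = k := by omega
    rw [e1, e2]
    refine ⟨letter m k hm 0, letter m k hm 1, letter_zero_bij hm, letter_one_card hm, sync hm,
      lower hm (min_le_right _ _) ?_⟩
    intro hk; simp [hk]
  refine ⟨main, ?_⟩
  obtain ⟨a, b, _, _, hs, hl⟩ := main
  exact hl.trans (le_iSup₂_of_le (f := fun (Ω : Finset (Fin n → Fin n))
    (_ : Ω.Nonempty ∧ Synchronizing Ω) => minWeight 3 Ω) {a, b}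
    ⟨Finset.insert_nonempty _ _, hs⟩ le_rfl)

end Pool.Agent.Results.MP_735804_co.LowerBoundFourThirds
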