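import Pool.Agent.H173.TRMain

/-!
# An upper bound for the triple rendezvous time

We prove `rdv(3, n) ≤ n² / 8 + (3 / 4) n √n + O(n)`; the previous bound had the constant
`(3 - √5) / 4 = 0.1909…` in place of `1 / 8`.

Idea of the proof. Suppose that no word of length at most `N` merges three states; let `R_t` be the
graph of the pairs merged by words of length at most `t`. Two estimates are combined.

* If `v` is doubled by a word `s`, all neighbours of `v` in `R_t`, `t ≤ N - |s|`, lie in the set of
  states without `s`-preimage. Comparing `s` with a word `u` of (nearly) maximal defect `k`, almost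
  all edges of `R_t` lie inside the set of the `2 k` states merged by `u`, and the degrees are at
  most `k`. As `R_t` has at least `t` edges, `N ≤ k² + O(n^{3/2})`.
* The fractional stable set polytope `X_t` of `R_t` satisfies `c_* X_{t+1} ⊆ X_t` for every letter
  `c`. While the maximal mass does not change, the span of the optimal face drops in dimension at
  each step, since otherwise it would be invariant under all words, a reset word included. By
  Hall's theorem this gives `N ≤ n² / 4 - k² + O(n)`.
-/

set_option autoImplicit false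

namespace Pool.Agent.Results.MP_735804_co.UpperBoundOneEighth

/-- The map of a word; a word is a list of maps, and the last map of the list acts first. -/
def act {n : ℕ} (w : List (Fin n → Fin n)) : Fin n → Fin n := w.foldr (· ∘ ·) id

/-- `w` is a word over the automaton `Ω` (a finite set of maps). -/
def IsWord {n : ℕ} (Ω : Finset (Fin n → Fin n)) (w : List (Fin n → Fin n)) : Prop :=
  ∀ f ∈ w, f ∈ Ω

/-- `Ω` has a reset word. -/
def Synchronizing {n : ℕ} (Ω : Finset (Fin n → Fin n)) : Prop :=
  ∃ w, IsWord Ω w ∧ ∀ i j : Fin n, act w i = act w j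

/-- The weight of `S`: the least length of a word with `|w(S)| = 1`, and `∞` if there is none. -/
noncomputable def weight {n : ℕ} (Ω : Finset (Fin n → Fin n)) (S : Finset (Fin n)) : ℕ∞ :=
  ⨅ (w : List (Fin n → Fin n)) (_ : IsWord Ω w ∧ (S.image (act w)).card = 1), (w.length : ℕ∞)

/-- The least weight of a set of `k` states. -/
noncomputable def minWeight (k : ℕ) {n : ℕ} (Ω : Finset (Fin n → Fin n)) : ℕ∞ :=
  ⨅ (S : Finset (Fin n)) (_ : S.card = k), weight Ω S

/-- The `k`-set rendezvous time: the largest value of `minWeight k Ω` over all synchronizing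
automata `Ω` with state set `Fin n`. -/
noncomputable def rdv (k n : ℕ) : ℕ∞ :=
  ⨆ (Ω : Finset (Fin n → Fin n)) (_ : Ω.Nonempty ∧ Synchronizing Ω), minWeight k Ω

open Pool.Agent.H173.TR

lemma act_append {n : ℕ} (w : List (Fin n → Fin n)) (c : Fin n → Fin n) :
    act (w ++ [c]) = act w ∘ c := by
  induction w with
  | nil => rfl
  | cons d w ih =>
    change d ∘ act (w ++ [c]) = (d ∘ act w) ∘ c
    rw [ih]; rfl

lemma act_mem {n : ℕ} {Ω : Finset (Fin n → Fin n)} {w : List (Fin n → Fin n)}
    (hw : IsWord Ω w) : act w ∈ W (Ω : Set (Fin n → Fin n)) w.length := by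
  induction w with
  | nil => exact rfl
  | cons c w ih =>
    have h1 : c ∈ (Ω : Set (Fin n → Fin n)) := hw c List.mem_cons_self
    have h2 := letter_comp h1 (ih fun f hf => hw f (List.mem_cons_of_mem _ hf))
    exact h2

lemma exists_word {n : ℕ} {Ω : Finset (Fin n → Fin n)} : ∀ t, ∀ f ∈ W (Ω : Set (Fin n → Fin n)) t,
    ∃ w, IsWord Ω w ∧ w.length ≤ t ∧ act w = f := by
  intro t
  induction t with
  | zero => intro f hf; exact ⟨[], by simp [IsWord], by simp, (show f = id from hf).symm⟩
  | succ t ih =>
    intro f hf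
    rcases hf with hf | ⟨g, hg, c, hc, rfl⟩
    · obtain ⟨w, h1, h2, h3⟩ := ih f hf
      exact ⟨w, h1, by omega, h3⟩
    · obtain ⟨w, h1, h2, h3⟩ := ih g hg
      refine ⟨w ++ [c], ?_, by simp [h2], by rw [act_append, h3]⟩
      intro f hf
      rw [List.mem_append, List.mem_singleton] at hf
      rcases hf with hf | rfl
      · exact h1 f hf
      · exact hc

/-- `rdv 3 n ≤ (n ^ 2 + 6 n ⌊√n⌋ + 13 n + 12) / 8` for all `n ≥ 3`. -/
theorem result (n : ℕ) (hn : 3 ≤ n) :
    rdv 3 n ≤ (((n ^ 2 + 6 * n * Nat.sqrt n + 13 * n + 12) / 8 : ℕ) : ℕ∞) := by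
  unfold rdv
  refine iSup₂_le fun Ω hΩ => ?_
  obtain ⟨_, w0, hw0, hconst⟩ := hΩ
  set M := (n ^ 2 + 6 * n * Nat.sqrt n + 13 * n + 12) / 8 with hM
  have hsync : Sync (Ω : Set (Fin n → Fin n)) := ⟨w0.length, act w0, act_mem hw0, hconst⟩
  have hnot : ¬ TF (Ω : Set (Fin n → Fin n)) M := by
    intro hT
    have h1 := main_bound (by rw [Fintype.card_fin]; exact hn) hsync hT
    rw [Fintype.card_fin] at h1
    omega
  unfold TF at hnot
  push Not at hnot
  obtain ⟨f, hf, q, hq⟩ := hnot
  obtain ⟨w, hw1, hw2, hw3⟩ := exists_word M f hf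
  obtain ⟨S, hS1, hS2⟩ := Finset.exists_subset_card_eq (by omega : 3 ≤ (fib f q).card)
  unfold minWeight weight
  refine (iInf₂_le S hS2).trans ((iInf₂_le w ⟨hw1, ?_⟩).trans (by exact_mod_cast hw2))
  rw [Finset.card_eq_one]
  refine ⟨q, ?_⟩
  ext p
  rw [Finset.mem_image, Finset.mem_singleton]
  constructor
  · rintro ⟨v, hv, rfl⟩
    rw [hw3]; exact mem_fib.1 (hS1 hv)
  · rintro rfl
    obtain ⟨v, hv⟩ := Finset.card_pos.1 (by omega : 0 < S.card)
    exact ⟨v, hv, by rw [hw3]; exact mem_fib.1 (hS1 hv)⟩

end Pool.Agent.Results.MP_735804_co.UpperBoundOneEighth
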